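import Mathlib

/-!
# MP_4c9b54_co: negative circle counts of signed `K_{2,s}` and `K_{3,s}`

For every `s` the sets `S_4(2,s)`, `S_4(3,s)` and `S_6(3,s)` are determined; for `K_{3,s}` the set of
all vectors `(c_4, c_6)` is determined.
-/

set_option autoImplicit false

namespace Pool.Agent.Results.MP_4c9b54_co.ThreeRows

open Finset

/-- The number of negative circles of length 4 of `K_{r,s}` with signature `σ` (`σ i j` is the sign
of the edge between the vertex `i` of the part of size `r` and the vertex `j` of the part of size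
`s`). A circle of length 4 consists of the four edges between two vertices `i < i'` of the first
part and two vertices `j < j'` of the second part. -/
def neg4 {r s : ℕ} (σ : Fin r → Fin s → ℤˣ) : ℕ :=
  #{x : (Fin r × Fin r) × (Fin s × Fin s) | x.1.1 < x.1.2 ∧ x.2.1 < x.2.2 ∧
    σ x.1.1 x.2.1 * σ x.1.2 x.2.1 * (σ x.1.1 x.2.2 * σ x.1.2 x.2.2) = -1}

/-- The number of negative circles of length 6 of `K_{3,s}` with signature `σ`. A circle of length 6
of `K_{3,s}` passes through the three vertices `0, 1, 2` of the first part; it is given by its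
vertex `x.1` adjacent on the circle to `1` and `2`, its vertex `x.2.1` adjacent on the circle to `0`
and `2`, and its vertex `x.2.2` adjacent on the circle to `0` and `1`, which are three different
vertices of the second part. -/
def neg6 {s : ℕ} (σ : Fin 3 → Fin s → ℤˣ) : ℕ :=
  #{x : Fin s × Fin s × Fin s | x.1 ≠ x.2.1 ∧ x.1 ≠ x.2.2 ∧ x.2.1 ≠ x.2.2 ∧
    σ 1 x.1 * σ 2 x.1 * (σ 0 x.2.1 * σ 2 x.2.1) * (σ 0 x.2.2 * σ 1 x.2.2) = -1}

/-! ### Proof -/

lemma pairs {s : ℕ} (t : Fin s → ℤˣ) :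
    (4 : ℤ) * #{x : Fin s × Fin s | x.1 < x.2 ∧ t x.1 * t x.2 = -1} =
      (s : ℤ) ^ 2 - (∑ j, ((t j : ℤˣ) : ℤ)) ^ 2 := by
  set g : Fin s × Fin s → ℤ := fun x => if x.1 < x.2 ∧ t x.1 * t x.2 = -1 then 1 else 0 with hg
  have h1 : ((#{x : Fin s × Fin s | x.1 < x.2 ∧ t x.1 * t x.2 = -1} : ℕ) : ℤ) = ∑ x, g x := by
    rw [Finset.natCast_card_filter]
  have h2 : ∑ x, g (Equiv.prodComm _ _ x) = ∑ x, g x := Equiv.sum_comp (Equiv.prodComm _ _) g
  have h3 : ∀ x : Fin s × Fin s, 2 * (g x + g (Equiv.prodComm _ _ x)) =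
      1 - ((t x.1 : ℤˣ) : ℤ) * ((t x.2 : ℤˣ) : ℤ) := by
    rintro ⟨j, j'⟩
    simp only [hg, Equiv.prodComm_apply, Prod.fst_swap, Prod.snd_swap]
    rcases lt_trichotomy j j' with h | h | h
    · rcases Int.units_eq_one_or (t j) with h1 | h1 <;> rcases Int.units_eq_one_or (t j') with h2 | h2 <;>
        simp [h1, h2, h, h.not_gt]
    · subst h
      rcases Int.units_eq_one_or (t j) with h1 | h1 <;> simp [h1]
    · rcases Int.units_eq_one_or (t j) with h1 | h1 <;> rcases Int.units_eq_one_or (t j') with h2 | h2 <;>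
        simp [h1, h2, h, h.not_gt]
  have h4 : ∑ x : Fin s × Fin s, (1 - ((t x.1 : ℤˣ) : ℤ) * ((t x.2 : ℤˣ) : ℤ)) =
      (s : ℤ) ^ 2 - (∑ j, ((t j : ℤˣ) : ℤ)) ^ 2 := by
    rw [Finset.sum_sub_distrib, Fintype.sum_prod_type, Fintype.sum_prod_type, sq (∑ j, _),
      Finset.sum_mul_sum]
    simp [sq]
  rw [h1, ← h4, ← Finset.sum_congr rfl fun x _ => h3 x, ← Finset.mul_sum, Finset.sum_add_distrib, h2]
  ring

/-- the three row sums -/
def X0 {s : ℕ} (σ : Fin 3 → Fin s → ℤˣ) : ℤ := ∑ j, ((σ 1 j * σ 2 j : ℤˣ) : ℤ)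
def X1 {s : ℕ} (σ : Fin 3 → Fin s → ℤˣ) : ℤ := ∑ j, ((σ 0 j * σ 2 j : ℤˣ) : ℤ)
def X2 {s : ℕ} (σ : Fin 3 → Fin s → ℤˣ) : ℤ := ∑ j, ((σ 0 j * σ 1 j : ℤˣ) : ℤ)

lemma neg4_two {s : ℕ} (σ : Fin 2 → Fin s → ℤˣ) :
    (4 : ℤ) * neg4 σ = (s : ℤ) ^ 2 - (∑ j, ((σ 0 j * σ 1 j : ℤˣ) : ℤ)) ^ 2 := by
  rw [← pairs fun j => σ 0 j * σ 1 j]
  congr 1
  rw [neg4, Finset.natCast_card_filter, Finset.natCast_card_filter, Fintype.sum_prod_type,
    Fintype.sum_prod_type]
  simp [Fin.sum_univ_two]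

lemma neg4_three {s : ℕ} (σ : Fin 3 → Fin s → ℤˣ) :
    (4 : ℤ) * neg4 σ = 3 * (s : ℤ) ^ 2 - X0 σ ^ 2 - X1 σ ^ 2 - X2 σ ^ 2 := by
  have h0 := pairs fun j => σ 1 j * σ 2 j
  have h1 := pairs fun j => σ 0 j * σ 2 j
  have h2 := pairs fun j => σ 0 j * σ 1 j
  have e : ((neg4 σ : ℕ) : ℤ) =
      #{x : Fin s × Fin s | x.1 < x.2 ∧ σ 0 x.1 * σ 1 x.1 * (σ 0 x.2 * σ 1 x.2) = -1} +
      #{x : Fin s × Fin s | x.1 < x.2 ∧ σ 0 x.1 * σ 2 x.1 * (σ 0 x.2 * σ 2 x.2) = -1} +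
      #{x : Fin s × Fin s | x.1 < x.2 ∧ σ 1 x.1 * σ 2 x.1 * (σ 1 x.2 * σ 2 x.2) = -1} := by
    rw [neg4, Finset.natCast_card_filter, Finset.natCast_card_filter, Finset.natCast_card_filter,
      Finset.natCast_card_filter, Fintype.sum_prod_type, Fintype.sum_prod_type]
    simp [Fin.sum_univ_three]
  rw [e, X0, X1, X2]
  linarith

lemma distinct {s : ℕ} (F : Fin s → Fin s → Fin s → ℤ) :
    ∑ x : Fin s × Fin s × Fin s, (if x.1 ≠ x.2.1 ∧ x.1 ≠ x.2.2 ∧ x.2.1 ≠ x.2.2 then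
      F x.1 x.2.1 x.2.2 else 0) = ∑ i, ∑ j, ∑ k, F i j k - ∑ i, ∑ k, F i i k - ∑ i, ∑ j, F i j i
        - ∑ i, ∑ j, F i j j + 2 * ∑ i, F i i i := by
  have h : ∀ i j k : Fin s, (if i ≠ j ∧ i ≠ k ∧ j ≠ k then F i j k else 0) =
      F i j k - (if i = j then F i j k else 0) - (if i = k then F i j k else 0) -
        (if j = k then F i j k else 0) + 2 * (if i = j then (if j = k then F i j k else 0) else 0) := by
    intro i j k
    by_cases h1 : i = j
    · subst h1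
      by_cases h2 : i = k
      · subst h2; simp; ring
      · simp [h2]
    · by_cases h2 : i = k
      · subst h2
        simp [h1, Ne.symm h1]
      · by_cases h3 : j = k
        · subst h3; simp [h1]
        · simp [h1, h2, h3]
  rw [Fintype.sum_prod_type]
  simp only [Fintype.sum_prod_type, h, Finset.sum_add_distrib, Finset.sum_sub_distrib,
    ← Finset.mul_sum]
  congr 1
  · congr 1
    · congr 1
      · congr 1
        refine Finset.sum_congr rfl fun i _ => ?_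
        rw [Finset.sum_comm]
        simp
      · simp
    · simp
  · congr 1
    refine Finset.sum_congr rfl fun i _ => ?_
    rw [Finset.sum_comm]
    simp

lemma neg6_three {s : ℕ} (σ : Fin 3 → Fin s → ℤˣ) :
    (2 : ℤ) * neg6 σ = (s : ℤ) ^ 3 - 3 * (s : ℤ) ^ 2 + 2 * s -
      (X0 σ * X1 σ * X2 σ - X0 σ ^ 2 - X1 σ ^ 2 - X2 σ ^ 2 + 2 * s) := by
  set u0 : Fin s → ℤ := fun j => ((σ 1 j * σ 2 j : ℤˣ) : ℤ) with hu0
  set u1 : Fin s → ℤ := fun j => ((σ 0 j * σ 2 j : ℤˣ) : ℤ) with hu1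
  set u2 : Fin s → ℤ := fun j => ((σ 0 j * σ 1 j : ℤˣ) : ℤ) with hu2
  have key : (2 : ℤ) * neg6 σ = ∑ x : Fin s × Fin s × Fin s,
      (if x.1 ≠ x.2.1 ∧ x.1 ≠ x.2.2 ∧ x.2.1 ≠ x.2.2 then
        (fun i j k => 1 - u0 i * u1 j * u2 k) x.1 x.2.1 x.2.2 else 0) := by
    rw [neg6, Finset.natCast_card_filter, Finset.mul_sum]
    refine Finset.sum_congr rfl fun x _ => ?_
    by_cases hx : x.1 ≠ x.2.1 ∧ x.1 ≠ x.2.2 ∧ x.2.1 ≠ x.2.2
    · rw [if_pos hx]
      have e : u0 x.1 * u1 x.2.1 * u2 x.2.2 = (((σ 1 x.1 * σ 2 x.1 * (σ 0 x.2.1 * σ 2 x.2.1) *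
          (σ 0 x.2.2 * σ 1 x.2.2) : ℤˣ)) : ℤ) := by
        simp [hu0, hu1, hu2]
      simp only [e]
      rcases Int.units_eq_one_or (σ 1 x.1 * σ 2 x.1 * (σ 0 x.2.1 * σ 2 x.2.1) *
          (σ 0 x.2.2 * σ 1 x.2.2)) with h1 | h1
      · rw [h1]; simp
      · rw [h1]; simp [hx]
    · rw [if_neg hx, if_neg]
      · ring
      · rintro ⟨h1, h2, h3, -⟩
        exact hx ⟨h1, h2, h3⟩
  have h01 : ∀ i, u0 i * u1 i = u2 i := by
    intro i
    simp only [hu0, hu1, hu2]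
    rcases Int.units_eq_one_or (σ 0 i) with h1 | h1 <;>
      rcases Int.units_eq_one_or (σ 1 i) with h2 | h2 <;>
        rcases Int.units_eq_one_or (σ 2 i) with h3 | h3 <;> simp [h1, h2, h3]
  have h02 : ∀ i, u0 i * u2 i = u1 i := by
    intro i
    simp only [hu0, hu1, hu2]
    rcases Int.units_eq_one_or (σ 0 i) with h1 | h1 <;>
      rcases Int.units_eq_one_or (σ 1 i) with h2 | h2 <;>
        rcases Int.units_eq_one_or (σ 2 i) with h3 | h3 <;> simp [h1, h2, h3]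
  have h12 : ∀ i, u1 i * u2 i = u0 i := by
    intro i
    simp only [hu0, hu1, hu2]
    rcases Int.units_eq_one_or (σ 0 i) with h1 | h1 <;>
      rcases Int.units_eq_one_or (σ 1 i) with h2 | h2 <;>
        rcases Int.units_eq_one_or (σ 2 i) with h3 | h3 <;> simp [h1, h2, h3]
  have h22 : ∀ i, u2 i * u2 i = 1 := by
    intro i
    simp only [hu2]
    rcases Int.units_eq_one_or (σ 0 i) with h1 | h1 <;>
      rcases Int.units_eq_one_or (σ 1 i) with h2 | h2 <;> simp [h1, h2]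
  have eX0 : X0 σ = ∑ j, u0 j := rfl
  have eX1 : X1 σ = ∑ j, u1 j := rfl
  have eX2 : X2 σ = ∑ j, u2 j := rfl
  rw [key, distinct fun i j k => 1 - u0 i * u1 j * u2 k]
  have s1 : ∑ i, ∑ j, ∑ k, (1 - u0 i * u1 j * u2 k) = (s : ℤ) ^ 3 - X0 σ * X1 σ * X2 σ := by
    simp only [Finset.sum_sub_distrib, ← Finset.mul_sum, ← Finset.sum_mul, eX0, eX1, eX2]
    simp; ring
  have s2 : ∑ i, ∑ k, (1 - u0 i * u1 i * u2 k) = (s : ℤ) ^ 2 - X2 σ ^ 2 := by
    simp only [h01, Finset.sum_sub_distrib, ← Finset.mul_sum, ← Finset.sum_mul, eX2]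
    simp; ring
  have s3 : ∑ i, ∑ j, (1 - u0 i * u1 j * u2 i) = (s : ℤ) ^ 2 - X1 σ ^ 2 := by
    have : ∀ i j, u0 i * u1 j * u2 i = u1 i * u1 j := by
      intro i j; rw [mul_right_comm, h02]
    simp only [this, Finset.sum_sub_distrib, ← Finset.mul_sum, ← Finset.sum_mul, eX1]
    simp; ring
  have s4 : ∑ i, ∑ j, (1 - u0 i * u1 j * u2 j) = (s : ℤ) ^ 2 - X0 σ ^ 2 := by
    have : ∀ i j, u0 i * u1 j * u2 j = u0 i * u0 j := by
      intro i j; rw [mul_assoc, h12]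
    simp only [this, Finset.sum_sub_distrib, ← Finset.mul_sum, ← Finset.sum_mul, eX0]
    simp; ring
  have s5 : ∑ i, (1 - u0 i * u1 i * u2 i) = 0 := by
    simp [h01, h22]
  rw [s1, s2, s3, s4, s5]
  ring

lemma X_of_sigma {s : ℕ} (σ : Fin 3 → Fin s → ℤˣ) : ∃ a b c d : ℕ, a + b + c + d = s ∧
    X0 σ = a + b - c - d ∧ X1 σ = a - b + c - d ∧ X2 σ = a - b - c + d := by
  refine ⟨#{j | σ 1 j * σ 2 j = 1 ∧ σ 0 j * σ 2 j = 1}, #{j | σ 1 j * σ 2 j = 1 ∧ σ 0 j * σ 2 j = -1},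
    #{j | σ 1 j * σ 2 j = -1 ∧ σ 0 j * σ 2 j = 1}, #{j | σ 1 j * σ 2 j = -1 ∧ σ 0 j * σ 2 j = -1},
    ?_, ?_, ?_, ?_⟩
  · have : ((#{j | σ 1 j * σ 2 j = 1 ∧ σ 0 j * σ 2 j = 1} + #{j | σ 1 j * σ 2 j = 1 ∧ σ 0 j * σ 2 j = -1} +
        #{j | σ 1 j * σ 2 j = -1 ∧ σ 0 j * σ 2 j = 1} +
          #{j | σ 1 j * σ 2 j = -1 ∧ σ 0 j * σ 2 j = -1} : ℕ) : ℤ) = ((s : ℕ) : ℤ) := by
      push_cast
      simp only [Finset.natCast_card_filter]
      rw [← Finset.sum_add_distrib, ← Finset.sum_add_distrib, ← Finset.sum_add_distrib]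
      rw [show ((s : ℕ) : ℤ) = ∑ _j : Fin s, (1 : ℤ) by simp]
      refine Finset.sum_congr rfl fun i _ => ?_
      rcases Int.units_eq_one_or (σ 0 i) with h1 | h1 <;>
      rcases Int.units_eq_one_or (σ 1 i) with h2 | h2 <;>
        rcases Int.units_eq_one_or (σ 2 i) with h3 | h3 <;> simp [h1, h2, h3]
    exact_mod_cast this
  · simp only [Finset.natCast_card_filter, X0]
    rw [← Finset.sum_add_distrib, ← Finset.sum_sub_distrib, ← Finset.sum_sub_distrib]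
    refine Finset.sum_congr rfl fun i _ => ?_
    rcases Int.units_eq_one_or (σ 0 i) with h1 | h1 <;>
      rcases Int.units_eq_one_or (σ 1 i) with h2 | h2 <;>
        rcases Int.units_eq_one_or (σ 2 i) with h3 | h3 <;> simp [h1, h2, h3]
  · simp only [Finset.natCast_card_filter, X1]
    rw [← Finset.sum_sub_distrib, ← Finset.sum_add_distrib, ← Finset.sum_sub_distrib]
    refine Finset.sum_congr rfl fun i _ => ?_
    rcases Int.units_eq_one_or (σ 0 i) with h1 | h1 <;>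
      rcases Int.units_eq_one_or (σ 1 i) with h2 | h2 <;>
        rcases Int.units_eq_one_or (σ 2 i) with h3 | h3 <;> simp [h1, h2, h3]
  · simp only [Finset.natCast_card_filter, X2]
    rw [← Finset.sum_sub_distrib, ← Finset.sum_sub_distrib, ← Finset.sum_add_distrib]
    refine Finset.sum_congr rfl fun i _ => ?_
    rcases Int.units_eq_one_or (σ 0 i) with h1 | h1 <;>
      rcases Int.units_eq_one_or (σ 1 i) with h2 | h2 <;>
        rcases Int.units_eq_one_or (σ 2 i) with h3 | h3 <;> simp [h1, h2, h3]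

lemma sigma_of_X {s a b c d : ℕ} (h : a + b + c + d = s) : ∃ σ : Fin 3 → Fin s → ℤˣ,
    X0 σ = a + b - c - d ∧ X1 σ = a - b + c - d ∧ X2 σ = a - b - c + d := by
  let e : Fin s ≃ ((Fin a ⊕ Fin b) ⊕ (Fin c ⊕ Fin d)) := Fintype.equivOfCardEq (by simp; omega)
  let g0 : ((Fin a ⊕ Fin b) ⊕ (Fin c ⊕ Fin d)) → ℤˣ := Sum.elim (Sum.elim (fun _ => 1) fun _ => 1)
    (Sum.elim (fun _ => -1) fun _ => -1)
  let g1 : ((Fin a ⊕ Fin b) ⊕ (Fin c ⊕ Fin d)) → ℤˣ := Sum.elim (Sum.elim (fun _ => 1) fun _ => -1)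
    (Sum.elim (fun _ => 1) fun _ => -1)
  refine ⟨fun i j => ![1, g0 (e j) * g1 (e j), g1 (e j)] i, ?_, ?_, ?_⟩
  · have : X0 (fun i j => ![1, g0 (e j) * g1 (e j), g1 (e j)] i) =
        ∑ y, ((g0 y * g1 y * g1 y : ℤˣ) : ℤ) := by
      rw [← Equiv.sum_comp e]; rfl
    rw [this]
    simp [g0, g1, Fintype.sum_sum_type]
    ring
  · have : X1 (fun i j => ![1, g0 (e j) * g1 (e j), g1 (e j)] i) =
        ∑ y, ((1 * g1 y : ℤˣ) : ℤ) := by
      rw [← Equiv.sum_comp e]; rfl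
    rw [this]
    simp [g1, Fintype.sum_sum_type]
    ring
  · have : X2 (fun i j => ![1, g0 (e j) * g1 (e j), g1 (e j)] i) =
        ∑ y, ((1 * (g0 y * g1 y) : ℤˣ) : ℤ) := by
      rw [← Equiv.sum_comp e]; rfl
    rw [this]
    simp [g0, g1, Fintype.sum_sum_type]
    ring

/-- `6`-circle count of the composition `a + b + c + d` -/
def C6 (a b c d : ℤ) : ℤ :=
  2 * (a * (a - 1) * (b + c + d) + b * (b - 1) * (a + c + d) + c * (c - 1) * (a + b + d) +
    d * (d - 1) * (a + b + c)) + 2 * (a * b * c + a * b * d + a * c * d + b * c * d)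

/-- For `K_{2,s}`: `N ∈ S_4(2,s)` iff `N = a b` with `a + b = s`. For `K_{3,s}`: `(M, N)` is the
pair of the numbers of negative circles of length 4 and 6 of some signature iff there are
nonnegative integers `a + b + c + d = s` with `M` equal to twice the second elementary symmetric
polynomial of `a, b, c, d` and `N = C6 a b c d`. -/
theorem result (s : ℕ) :
    (∀ N : ℕ, (∃ σ : Fin 2 → Fin s → ℤˣ, neg4 σ = N) ↔ ∃ a b : ℕ, a + b = s ∧ N = a * b) ∧
    (∀ M N : ℕ, (∃ σ : Fin 3 → Fin s → ℤˣ, neg4 σ = M ∧ neg6 σ = N) ↔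
      ∃ a b c d : ℕ, a + b + c + d = s ∧
        M = 2 * (a * b + a * c + a * d + b * c + b * d + c * d) ∧ (N : ℤ) = C6 a b c d) := by
  refine ⟨fun N => ⟨?_, ?_⟩, fun M N => ⟨?_, ?_⟩⟩
  · rintro ⟨σ, rfl⟩
    refine ⟨#{j | σ 0 j * σ 1 j = 1}, #{j | σ 0 j * σ 1 j = -1}, ?_, ?_⟩
    · have : ((#{j | σ 0 j * σ 1 j = 1} + #{j | σ 0 j * σ 1 j = -1} : ℕ) : ℤ) = ((s : ℕ) : ℤ) := by
        push_cast
        simp only [Finset.natCast_card_filter]
        rw [← Finset.sum_add_distrib, show ((s : ℕ) : ℤ) = ∑ _j : Fin s, (1 : ℤ) by simp]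
        refine Finset.sum_congr rfl fun i _ => ?_
        rcases Int.units_eq_one_or (σ 0 i * σ 1 i) with h1 | h1 <;> rw [h1] <;> simp
      exact_mod_cast this
    · have h1 := neg4_two σ
      have h2 : ((#{j | σ 0 j * σ 1 j = 1} : ℕ) : ℤ) + (#{j | σ 0 j * σ 1 j = -1} : ℕ) =
          ((s : ℕ) : ℤ) := by
        simp only [Finset.natCast_card_filter]
        rw [← Finset.sum_add_distrib, show ((s : ℕ) : ℤ) = ∑ _j : Fin s, (1 : ℤ) by simp]
        refine Finset.sum_congr rfl fun i _ => ?_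
        rcases Int.units_eq_one_or (σ 0 i * σ 1 i) with h1 | h1 <;> rw [h1] <;> simp
      have h3 : ((#{j | σ 0 j * σ 1 j = 1} : ℕ) : ℤ) - (#{j | σ 0 j * σ 1 j = -1} : ℕ) =
          ∑ j, ((σ 0 j * σ 1 j : ℤˣ) : ℤ) := by
        simp only [Finset.natCast_card_filter]
        rw [← Finset.sum_sub_distrib]
        refine Finset.sum_congr rfl fun i _ => ?_
        rcases Int.units_eq_one_or (σ 0 i * σ 1 i) with h1 | h1 <;> rw [h1] <;> simp
      rw [← h2, ← h3] at h1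
      have h4 : ((neg4 σ : ℕ) : ℤ) = ((#{j | σ 0 j * σ 1 j = 1} : ℕ) : ℤ) *
          (#{j | σ 0 j * σ 1 j = -1} : ℕ) := by linarith
      exact_mod_cast h4
  · rintro ⟨a, b, hs, rfl⟩
    let e : Fin s ≃ (Fin a ⊕ Fin b) := Fintype.equivOfCardEq (by simp; omega)
    let g : (Fin a ⊕ Fin b) → ℤˣ := Sum.elim (fun _ => 1) fun _ => -1
    refine ⟨fun i j => ![1, g (e j)] i, ?_⟩
    have h1 := neg4_two fun (i : Fin 2) (j : Fin s) => ![1, g (e j)] i
    have h2 : ∑ j, (((fun (i : Fin 2) (j : Fin s) => ![1, g (e j)] i) 0 j *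
        (fun (i : Fin 2) (j : Fin s) => ![1, g (e j)] i) 1 j : ℤˣ) : ℤ) = (a : ℤ) - b := by
      have : ∑ j, (((fun (i : Fin 2) (j : Fin s) => ![1, g (e j)] i) 0 j *
        (fun (i : Fin 2) (j : Fin s) => ![1, g (e j)] i) 1 j : ℤˣ) : ℤ) =
          ∑ y, ((1 * g y : ℤˣ) : ℤ) := by
        rw [← Equiv.sum_comp e]; rfl
      rw [this]
      simp [g, Fintype.sum_sum_type]
      ring
    rw [h2] at h1
    have h3 : (s : ℤ) = a + b := by rw [← hs]; push_cast; ring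
    rw [h3] at h1
    have h4 : ((neg4 (fun (i : Fin 2) (j : Fin s) => ![1, g (e j)] i) : ℕ) : ℤ) = (a : ℤ) * b := by
      linarith
    exact_mod_cast h4
  · rintro ⟨σ, rfl, rfl⟩
    obtain ⟨a, b, c, d, hs, h0, h1, h2⟩ := X_of_sigma σ
    refine ⟨a, b, c, d, hs, ?_, ?_⟩
    · have h4 := neg4_three σ
      have h3 : (s : ℤ) = a + b + c + d := by rw [← hs]; push_cast; ring
      rw [h0, h1, h2, h3] at h4
      have h5 : ((neg4 σ : ℕ) : ℤ) = 2 * (a * b + a * c + a * d + b * c + b * d + c * d) := by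
        linarith
      exact_mod_cast h5
    · have h4 := neg6_three σ
      have h3 : (s : ℤ) = a + b + c + d := by rw [← hs]; push_cast; ring
      rw [h0, h1, h2, h3] at h4
      rw [C6]
      linarith
  · rintro ⟨a, b, c, d, hs, hM, hN⟩
    obtain ⟨σ, h0, h1, h2⟩ := sigma_of_X hs
    have h3 : (s : ℤ) = a + b + c + d := by rw [← hs]; push_cast; ring
    refine ⟨σ, ?_, ?_⟩
    · have h4 := neg4_three σ
      rw [h0, h1, h2, h3] at h4
      have h5 : ((neg4 σ : ℕ) : ℤ) = 2 * (a * b + a * c + a * d + b * c + b * d + c * d) := by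
        linarith
      rw [hM]
      exact_mod_cast h5
    · have h4 := neg6_three σ
      rw [h0, h1, h2, h3] at h4
      rw [C6] at hN
      have h5 : ((neg6 σ : ℕ) : ℤ) = N := by linarith
      exact_mod_cast h5

end Pool.Agent.Results.MP_4c9b54_co.ThreeRows
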